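import Pool.Agent.H261R2.CM.K6
import Pool.Agent.H261R2.CM.L1
import Pool.Agent.TH845.KN.A7

/-!
# Products of measures of coprime pairs
-/

set_option autoImplicit false

open Filter MeasureTheory

namespace Pool.Agent.TH845.KN

open Pool.Agent.H261R2.CM

noncomputable section

/-- the marginals of a power of a probability measure -/
theorem pi_map_comp {k m : ℕ} (φ : Fin k → Fin m) (hφ : Function.Injective φ) (ν : Measure ℝ)
    [IsProbabilityMeasure ν] :
    (Measure.pi (fun _ : Fin m => ν)).map (fun t => fun j => t (φ j)) =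
      Measure.pi (fun _ : Fin k => ν) := by
  classical
  symm
  apply Measure.pi_eq
  intro s hs
  rw [Measure.map_apply (by fun_prop) (MeasurableSet.univ_pi hs)]
  have h0 : (fun t : Fin m → ℝ => fun j => t (φ j)) ⁻¹' (Set.pi Set.univ s) =
      Set.pi Set.univ (fun i => {x | ∀ j, φ j = i → x ∈ s j}) := by
    ext t
    simp only [Set.mem_preimage, Set.mem_pi, Set.mem_univ, true_implies, Set.mem_setOf_eq]
    constructor
    · intro h i j hj
      rw [← hj]
      exact h j
    · intro h j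
      exact h (φ j) j rfl
  rw [h0, Measure.pi_pi]
  have h1 : ∀ i ∈ (Finset.univ : Finset (Fin m)), i ∉ Finset.univ.image φ →
      ν {x | ∀ j, φ j = i → x ∈ s j} = 1 := by
    intro i _ hi
    have : {x : ℝ | ∀ j, φ j = i → x ∈ s j} = Set.univ := by
      ext x
      simp only [Set.mem_setOf_eq, Set.mem_univ, iff_true]
      intro j hj
      exact absurd (Finset.mem_image.2 ⟨j, Finset.mem_univ j, hj⟩) hi
    rw [this]
    exact measure_univ
  rw [← Finset.prod_subset (Finset.subset_univ (Finset.univ.image φ)) h1,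
    Finset.prod_image (fun a _ b _ hab => hφ hab)]
  refine Finset.prod_congr rfl fun j _ => ?_
  congr 1
  ext x
  simp only [Set.mem_setOf_eq]
  constructor
  · intro h
    exact h j rfl
  · intro h j' hj'
    rw [hφ hj']
    exact h

instance : IsProbabilityMeasure ((volume : Measure ℝ).restrict (Set.Icc 0 1)) :=
  ⟨by rw [Measure.restrict_apply_univ, Real.volume_Icc]; simp⟩

theorem cube_comp {k m : ℕ} (φ : Fin k → Fin m) (hφ : Function.Injective φ)
    (g : (Fin k → ℝ) → ℝ) (hg : Measurable g) :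
    ∫ t in Set.Icc (0 : Fin m → ℝ) 1, g (fun j => t (φ j)) =
      ∫ t in Set.Icc (0 : Fin k → ℝ) 1, g t := by
  rw [F_restrict_cube, F_restrict_cube, ← pi_map_comp φ hφ, integral_map]
  · exact (by fun_prop : Measurable fun t : Fin m → ℝ => fun j => t (φ j)).aemeasurable
  · exact hg.aestronglyMeasurable

section ren

variable {k m : ℕ} (φ : Fin k → Fin m) (hφ : Function.Injective φ)

theorem tv_ren (A : MvPolynomial (Fin k) ℤ) (t : Fin m → ℝ) :
    tv (MvPolynomial.rename φ A) t = tv A (fun j => t (φ j)) := by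
  unfold tv
  rw [MvPolynomial.map_rename, MvPolynomial.eval_rename]
  rfl

theorem meas_log (A : MvPolynomial (Fin k) ℤ) : Measurable fun t => Real.log ‖tv A t‖ :=
  Real.measurable_log.comp (F_continuous_tv A).norm.measurable

theorem meas_logmax (A B : MvPolynomial (Fin k) ℤ) :
    Measurable fun t => Real.log (max ‖tv A t‖ ‖tv B t‖) :=
  Real.measurable_log.comp ((F_continuous_tv A).norm.max (F_continuous_tv B).norm).measurable

include hφ in
theorem mM_ren (A : MvPolynomial (Fin k) ℤ) : mM (MvPolynomial.rename φ A) = mM A := by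
  unfold mM
  simp_rw [tv_ren]
  rw [cube_comp φ hφ (fun t => Real.log ‖tv A t‖) (meas_log A)]

include hφ in
theorem mx_ren (A B : MvPolynomial (Fin k) ℤ) :
    mx (MvPolynomial.rename φ A) (MvPolynomial.rename φ B) = mx A B := by
  unfold mx
  simp_rw [tv_ren]
  rw [cube_comp φ hφ (fun t => Real.log (max ‖tv A t‖ ‖tv B t‖)) (meas_logmax A B)]

include hφ in
theorem ren_ne_zero {A : MvPolynomial (Fin k) ℤ} (hA : A ≠ 0) : MvPolynomial.rename φ A ≠ 0 := by
  intro h
  exact hA (MvPolynomial.rename_injective φ hφ (by rw [h, map_zero]))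

theorem degreeOf_ren (A : MvPolynomial (Fin k) ℤ) (i : Fin m) (hi : ∀ j, φ j ≠ i) :
    MvPolynomial.degreeOf i (MvPolynomial.rename φ A) = 0 := by
  classical
  by_contra h
  have h1 : ∃ s ∈ (MvPolynomial.rename φ A).support, s i ≠ 0 := by
    by_contra h2
    push Not at h2
    apply h
    apply Nat.le_zero.1
    exact MvPolynomial.degreeOf_le_iff.2 fun s hs => (h2 s hs).le
  obtain ⟨s, hs, hs0⟩ := h1
  have h3 : i ∈ (MvPolynomial.rename φ A).vars := by
    rw [MvPolynomial.mem_vars_iff_mem_support]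
    exact ⟨s, hs, Finsupp.mem_support_iff.2 hs0⟩
  have h4 := MvPolynomial.vars_rename φ A h3
  rw [Finset.mem_image] at h4
  obtain ⟨j, _, hj⟩ := h4
  exact hi j hj

include hφ in
theorem isUnit_of_ren {A B π : MvPolynomial (Fin k) ℤ} {ρ : MvPolynomial (Fin m) ℤ} (hA : A ≠ 0)
    (h : IsRelPrime A B) (h1 : ρ ∣ MvPolynomial.rename φ A) (h2 : ρ ∣ MvPolynomial.rename φ B) :
    IsUnit ρ := by
  classical
  have h3 : ∀ i, (∀ j, φ j ≠ i) → MvPolynomial.degreeOf i ρ = 0 := fun i hi =>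
    J.degreeOf_zero_of_dvd (ren_ne_zero φ hφ hA) h1 i (degreeOf_ren φ A i hi)
  obtain ⟨ρ', rfl⟩ : ∃ ρ' : MvPolynomial (Fin k) ℤ, MvPolynomial.rename φ ρ' = ρ := by
    apply MvPolynomial.exists_rename_eq_of_vars_subset_range ρ φ hφ
    intro i hi
    rw [Finset.mem_coe, MvPolynomial.mem_vars_iff_mem_support] at hi
    obtain ⟨d, hd, hdi⟩ := hi
    rw [Finsupp.mem_support_iff] at hdi
    by_contra hc
    have h4 := h3 i (fun j hj => hc ⟨j, hj⟩)
    have := MvPolynomial.monomial_le_degreeOf i hd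
    omega
  have h5 := map_dvd (MvPolynomial.killCompl hφ) h1
  have h6 := map_dvd (MvPolynomial.killCompl hφ) h2
  rw [MvPolynomial.killCompl_rename_app, MvPolynomial.killCompl_rename_app] at h5 h6
  exact (h h5 h6).map (MvPolynomial.rename φ)

end ren

theorem integrable_logmax' {k : ℕ} {A : MvPolynomial (Fin k) ℤ} (hA : A ≠ 0)
    (B : MvPolynomial (Fin k) ℤ) :
    Integrable (fun t : Fin k → ℝ => Real.log (max ‖tv A t‖ ‖tv B t‖))
      (volume.restrict (Set.Icc (0 : Fin k → ℝ) 1)) := by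
  have h7 := K4_intk thM thM_cont thM_ge A B hA
  have h8 : ∀ t : Fin k → ℝ, Real.log (max ‖tv A t‖ ‖tv B t‖) =
      1 / 2 * Real.log (thM ‖tv A t‖ ‖tv B t‖) := by
    intro t
    rw [thM_log (norm_nonneg _) (norm_nonneg _)]
    ring
  simp only [h8]
  exact h7.const_mul (1 / 2)

/-- **The exhaustion of Boyd's set is multiplicative.** -/
theorem LL_mul {K K' x y : ℝ} (hx : x ∈ LL K) (hy : y ∈ LL K') : x * y ∈ LL (K + K') := by
  classical
  obtain ⟨k, hk, F1, G1, hF1, hG1, h1, hK1, rfl⟩ := hx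
  obtain ⟨l, hl, F2, G2, hF2, hG2, h2, hK2, rfl⟩ := hy
  set φ : Fin k → Fin (k + l) := Fin.castAdd l with hφ
  set ψ : Fin l → Fin (k + l) := Fin.natAdd k with hψ
  have hφi : Function.Injective φ := Fin.castAdd_injective k l
  have hψi : Function.Injective ψ := Fin.natAdd_injective l k
  have hφψ : ∀ i j, φ i ≠ ψ j := by
    intro i j h
    have := congrArg Fin.val h
    simp only [hφ, hψ, Fin.val_castAdd, Fin.val_natAdd] at this
    omega
  set A1 := MvPolynomial.rename φ F1 with hA1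
  set B1 := MvPolynomial.rename φ G1 with hB1
  set A2 := MvPolynomial.rename ψ F2 with hA2
  set B2 := MvPolynomial.rename ψ G2 with hB2
  have nA1 : A1 ≠ 0 := ren_ne_zero φ hφi hF1
  have nB1 : B1 ≠ 0 := ren_ne_zero φ hφi hG1
  have nA2 : A2 ≠ 0 := ren_ne_zero ψ hψi hF2
  have nB2 : B2 ≠ 0 := ren_ne_zero ψ hψi hG2
  obtain ⟨a, P, ha0, hP, hprim⟩ := exists_primitive (B1 * B2) (mul_ne_zero nB1 nB2)
  have hP0 : P ≠ 0 := by
    rintro rfl
    rw [mul_zero] at hP
    exact mul_ne_zero nB1 nB2 hP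
  have hconst : ∀ π : MvPolynomial (Fin (k + l)) ℤ, Prime π → π ∣ A1 * A2 → π ∣ B1 * B2 →
      ∃ b : ℤ, π = MvPolynomial.C b := by
    intro π hπ hd1 hd2
    have hmix : ∀ (C D : MvPolynomial (Fin (k + l)) ℤ), C ≠ 0 → D ≠ 0 →
        (∀ j, MvPolynomial.degreeOf (ψ j) C = 0) → (∀ i, MvPolynomial.degreeOf (φ i) D = 0) →
        π ∣ C → π ∣ D → ∃ b : ℤ, π = MvPolynomial.C b := by
      intro C D hC hD hC2 hD2 e1 e2
      refine ⟨_, J.eq_C_of_degreeOf_zero fun i => ?_⟩
      refine Fin.addCases (fun i => ?_) (fun j => ?_) i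
      · exact J.degreeOf_zero_of_dvd hD e2 _ (hD2 i)
      · exact J.degreeOf_zero_of_dvd hC e1 _ (hC2 j)
    have dA1 : ∀ j, MvPolynomial.degreeOf (ψ j) A1 = 0 := fun j =>
      degreeOf_ren φ F1 _ fun i => hφψ i j
    have dB1 : ∀ j, MvPolynomial.degreeOf (ψ j) B1 = 0 := fun j =>
      degreeOf_ren φ G1 _ fun i => hφψ i j
    have dA2 : ∀ i, MvPolynomial.degreeOf (φ i) A2 = 0 := fun i =>
      degreeOf_ren ψ F2 _ fun j => (hφψ i j).symm
    have dB2 : ∀ i, MvPolynomial.degreeOf (φ i) B2 = 0 := fun i =>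
      degreeOf_ren ψ G2 _ fun j => (hφψ i j).symm
    rcases hπ.dvd_or_dvd hd1 with e1 | e1 <;> rcases hπ.dvd_or_dvd hd2 with e2 | e2
    · exact absurd (isUnit_of_ren φ hφi (π := 0) hF1 h1 e1 e2) hπ.not_unit
    · exact hmix A1 B2 nA1 nB2 dA1 dB2 e1 e2
    · exact hmix B1 A2 nB1 nA2 dB1 dA2 e2 e1
    · exact absurd (isUnit_of_ren ψ hψi (π := 0) hF2 h2 e1 e2) hπ.not_unit
  have hrel : IsRelPrime (A1 * A2) P := by
    intro d hd1 hd2
    by_contra hu
    have hd0 : d ≠ 0 := by
      rintro rfl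
      exact hP0 (zero_dvd_iff.1 hd2)
    obtain ⟨π, hπ, hπd⟩ := WfDvdMonoid.exists_irreducible_factor hu hd0
    obtain ⟨b, rfl⟩ := hconst π hπ.prime (hπd.trans hd1)
      ((hπd.trans hd2).trans (by rw [hP]; exact dvd_mul_left _ _))
    exact hπ.not_isUnit ((hprim b (hπd.trans hd2)).map MvPolynomial.C)
  refine ⟨k + l, by omega, A1 * A2, P, mul_ne_zero nA1 nA2, hP0, hrel, ?_, ?_⟩
  · have hpt : ∀ᵐ t ∂(volume.restrict (Set.Icc (0 : Fin (k + l) → ℝ) 1)),
        Real.log (max ‖tv (A1 * A2) t‖ ‖tv P t‖) ≤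
          Real.log (max ‖tv A1 t‖ ‖tv B1 t‖) + Real.log (max ‖tv A2 t‖ ‖tv B2 t‖) := by
      filter_upwards [F_zero_null nA1, F_zero_null nA2] with t g1 g2
      have p1 : 0 < ‖tv A1 t‖ := norm_pos_iff.2 g1
      have p2 : 0 < ‖tv A2 t‖ := norm_pos_iff.2 g2
      have p3 : 0 < max ‖tv A1 t‖ ‖tv B1 t‖ := lt_max_of_lt_left p1
      have p4 : 0 < max ‖tv A2 t‖ ‖tv B2 t‖ := lt_max_of_lt_left p2
      rw [← Real.log_mul p3.ne' p4.ne']
      apply Real.log_le_log
      · apply lt_max_of_lt_left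
        rw [J.tv_mul, norm_mul]
        positivity
      · apply max_le
        · rw [J.tv_mul, norm_mul]
          exact mul_le_mul (le_max_left _ _) (le_max_left _ _) (norm_nonneg _) p3.le
        · have q1 : ‖tv P t‖ ≤ ‖tv (B1 * B2) t‖ := by
            rw [hP, J.tv_mul, J.tv_C, norm_mul, Complex.norm_intCast]
            have q2 : (1 : ℝ) ≤ |((a : ℤ) : ℝ)| := by exact_mod_cast Int.one_le_abs ha0
            exact le_mul_of_one_le_left (norm_nonneg _) q2
          refine q1.trans ?_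
          rw [J.tv_mul, norm_mul]
          exact mul_le_mul (le_max_right _ _) (le_max_right _ _) (norm_nonneg _) p3.le
    have hI := integral_mono_ae (integrable_logmax' (mul_ne_zero nA1 nA2) P)
      ((integrable_logmax' nA1 B1).add (integrable_logmax' nA2 B2)) hpt
    have hI2 : mx (A1 * A2) P ≤ mx A1 B1 + mx A2 B2 := by
      unfold mx
      refine hI.trans (le_of_eq ?_)
      exact integral_add (integrable_logmax' nA1 B1) (integrable_logmax' nA2 B2)
    rw [hA1, hB1, hA2, hB2, mx_ren φ hφi, mx_ren ψ hψi] at hI2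
    linarith
  · rw [mM_mul A1 A2 nA1 nA2, hA1, hA2, mM_ren φ hφi, mM_ren ψ hψi]

end

end Pool.Agent.TH845.KN
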