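import Pool.Agent.TH845.KN.A8
import Pool.Agent.TH845.KN.A9

/-!
# Norms of coprime pairs
-/

set_option autoImplicit false

open NumberField Filter MeasureTheory

namespace Pool.Agent.TH845.KN

open Pool.Agent.W242.IM Pool.Agent.H261R2.CM

noncomputable section

/-- value of a complex polynomial at a point of the torus -/
def cv {k : ℕ} (p : MvPolynomial (Fin k) ℂ) (t : Fin k → ℝ) : ℂ := MvPolynomial.eval (J.zz t) p

/-- Mahler measure of a complex polynomial -/
def mC {k : ℕ} (p : MvPolynomial (Fin k) ℂ) : ℝ :=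
  Real.exp (∫ t in Set.Icc (0 : Fin k → ℝ) 1, Real.log ‖cv p t‖)

/-- pair height of complex polynomials -/
def mxC {k : ℕ} (p q : MvPolynomial (Fin k) ℂ) : ℝ :=
  ∫ t in Set.Icc (0 : Fin k → ℝ) 1, Real.log (max ‖cv p t‖ ‖cv q t‖)

theorem continuous_cv {k : ℕ} (p : MvPolynomial (Fin k) ℂ) : Continuous (cv p) := by
  have h1 : cv p = fun t => ∑ s ∈ p.support, p.coeff s * ∏ i, (J.zz t i) ^ s i := by
    funext t
    unfold cv
    rw [MvPolynomial.eval_eq']
  rw [h1]
  unfold J.zz
  fun_prop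

theorem cv_bound {k : ℕ} (p : MvPolynomial (Fin k) ℂ) :
    ∃ K : ℝ, 1 ≤ K ∧ ∀ t, ‖cv p t‖ ≤ K := by
  refine ⟨1 + ∑ s ∈ p.support, ‖p.coeff s‖, ?_, fun t => ?_⟩
  · have : 0 ≤ ∑ s ∈ p.support, ‖p.coeff s‖ := Finset.sum_nonneg fun _ _ => norm_nonneg _
    linarith
  · unfold cv
    rw [MvPolynomial.eval_eq']
    refine (norm_sum_le _ _).trans ?_
    have h1 : ∀ s ∈ p.support, ‖p.coeff s * ∏ i, (J.zz t i) ^ s i‖ = ‖p.coeff s‖ := by
      intro s _
      rw [norm_mul, norm_prod]
      have h4 : ∀ i, ‖(J.zz t i) ^ s i‖ = 1 := fun i => by rw [norm_pow, J.norm_zz, one_pow]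
      simp only [h4, Finset.prod_const_one, mul_one]
    rw [Finset.sum_congr rfl h1]
    linarith

variable {E : Type} [Field E] [NumberField E] {k : ℕ}

theorem norm_tv_cprod {f : MvPolynomial (Fin k) (𝓞 E)} {F : MvPolynomial (Fin k) ℤ}
    (hF : MvPolynomial.map (Int.castRingHom ℂ) F = cprod f) (t : Fin k → ℝ) :
    ‖tv F t‖ = ∏ σ : E →+* ℂ, ‖cv (MvPolynomial.map (emb σ) f) t‖ := by
  rw [tv_cprod hF, norm_prod]
  rfl

theorem F_ne_zero {f : MvPolynomial (Fin k) (𝓞 E)} (hf : f ≠ 0) {F : MvPolynomial (Fin k) ℤ}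
    (hF : MvPolynomial.map (Int.castRingHom ℂ) F = cprod f) : F ≠ 0 := by
  have hfE : toE f ≠ 0 := by
    intro h
    apply hf
    apply toE_injective
    rw [h]
    unfold toE
    rw [map_zero]
  have h1 := isN_ne_zero (isN_of_int hF) hfE
  rintro rfl
  rw [map_zero] at h1
  exact h1 rfl

/-- almost everywhere nonvanishing of the conjugates -/
theorem ae_ne {f : MvPolynomial (Fin k) (𝓞 E)} (hf : f ≠ 0) :
    ∀ᵐ t ∂(volume.restrict (Set.Icc (0 : Fin k → ℝ) 1)), ∀ σ : E →+* ℂ,
      0 < ‖cv (MvPolynomial.map (emb σ) f) t‖ := by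
  obtain ⟨F, hF⟩ := norm_int f
  filter_upwards [F_zero_null (F_ne_zero hf hF)] with t ht σ
  have h1 := norm_tv_cprod hF t
  rw [norm_pos_iff]
  intro h
  have h2 : (∏ σ : E →+* ℂ, ‖cv (MvPolynomial.map (emb σ) f) t‖) = 0 :=
    Finset.prod_eq_zero (Finset.mem_univ σ) (by rw [h, norm_zero])
  rw [h2, norm_eq_zero] at h1
  exact ht h1

/-- integrability of the logarithms of the conjugates -/
theorem integrable_conj {f : MvPolynomial (Fin k) (𝓞 E)} (hf : f ≠ 0) (σ : E →+* ℂ) :
    Integrable (fun t : Fin k → ℝ => Real.log ‖cv (MvPolynomial.map (emb σ) f) t‖)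
      (volume.restrict (Set.Icc (0 : Fin k → ℝ) 1)) := by
  classical
  obtain ⟨F, hF⟩ := norm_int f
  have hb : ∀ τ : E →+* ℂ, ∃ K : ℝ, 1 ≤ K ∧ ∀ t, ‖cv (MvPolynomial.map (emb τ) f) t‖ ≤ K :=
    fun τ => cv_bound _
  choose K hK1 hK using hb
  have hL : ∀ τ, 0 ≤ Real.log (K τ) := fun τ => Real.log_nonneg (hK1 τ)
  have hi := F_integrable (F_ne_zero hf hF)
  refine Integrable.mono' (hi.abs.add (integrable_const (∑ τ : E →+* ℂ, Real.log (K τ)))) ?_ ?_
  · exact (Real.measurable_log.comp (continuous_cv _).norm.measurable).aestronglyMeasurable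
  · filter_upwards [ae_ne hf] with t ht
    have h1 := congrArg Real.log (norm_tv_cprod hF t)
    rw [Real.log_prod (fun τ _ => (ht τ).ne')] at h1
    have hup : ∀ τ, Real.log ‖cv (MvPolynomial.map (emb τ) f) t‖ ≤ Real.log (K τ) :=
      fun τ => Real.log_le_log (ht τ) (hK τ t)
    have h2 : Real.log ‖cv (MvPolynomial.map (emb σ) f) t‖ +
        ∑ τ ∈ Finset.univ.erase σ, Real.log ‖cv (MvPolynomial.map (emb τ) f) t‖ =
        Real.log ‖tv F t‖ := by
      rw [h1]
      exact Finset.add_sum_erase Finset.univ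
        (fun τ : E →+* ℂ => Real.log ‖cv (MvPolynomial.map (emb τ) f) t‖) (Finset.mem_univ σ)
    have h3 : ∑ τ ∈ Finset.univ.erase σ, Real.log ‖cv (MvPolynomial.map (emb τ) f) t‖ ≤
        ∑ τ ∈ Finset.univ.erase σ, Real.log (K τ) := Finset.sum_le_sum fun τ _ => hup τ
    have h4 : Real.log (K σ) + ∑ τ ∈ Finset.univ.erase σ, Real.log (K τ) =
        ∑ τ : E →+* ℂ, Real.log (K τ) :=
      Finset.add_sum_erase Finset.univ (fun τ : E →+* ℂ => Real.log (K τ)) (Finset.mem_univ σ)
    have h5 := hup σ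
    have h6 := hL σ
    have h7 : 0 ≤ ∑ τ ∈ Finset.univ.erase σ, Real.log (K τ) := Finset.sum_nonneg fun τ _ => hL τ
    rw [Real.norm_eq_abs, abs_le]
    simp only [Pi.add_apply]
    have h8 := neg_abs_le (Real.log ‖tv F t‖)
    have h9 := abs_nonneg (Real.log ‖tv F t‖)
    constructor <;> linarith

/-- the measure of the norm is the product of the measures of the conjugates -/
theorem mM_norm {f : MvPolynomial (Fin k) (𝓞 E)} (hf : f ≠ 0) {F : MvPolynomial (Fin k) ℤ}
    (hF : MvPolynomial.map (Int.castRingHom ℂ) F = cprod f) :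
    mM F = ∏ σ : E →+* ℂ, mC (MvPolynomial.map (emb σ) f) := by
  unfold mM mC
  rw [← Real.exp_sum, ← integral_finset_sum _ fun σ _ => integrable_conj hf σ]
  congr 1
  refine integral_congr_ae ?_
  filter_upwards [ae_ne hf] with t ht
  rw [norm_tv_cprod hF t, Real.log_prod (fun τ _ => (ht τ).ne')]

theorem integrable_maxC {f : MvPolynomial (Fin k) (𝓞 E)} (hf : f ≠ 0)
    (g : MvPolynomial (Fin k) (𝓞 E)) (σ : E →+* ℂ) :
    Integrable (fun t : Fin k → ℝ => Real.log (max ‖cv (MvPolynomial.map (emb σ) f) t‖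
      ‖cv (MvPolynomial.map (emb σ) g) t‖)) (volume.restrict (Set.Icc (0 : Fin k → ℝ) 1)) := by
  obtain ⟨K1, h1, h1'⟩ := cv_bound (MvPolynomial.map (emb σ) f)
  obtain ⟨K2, h2, h2'⟩ := cv_bound (MvPolynomial.map (emb σ) g)
  refine Integrable.mono' ((integrable_conj hf σ).abs.add
    (integrable_const (Real.log (max K1 K2)))) ?_ ?_
  · exact (Real.measurable_log.comp
      ((continuous_cv _).norm.max (continuous_cv _).norm).measurable).aestronglyMeasurable
  · filter_upwards [ae_ne hf] with t ht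
    have p1 := ht σ
    have p3 : 0 < max ‖cv (MvPolynomial.map (emb σ) f) t‖ ‖cv (MvPolynomial.map (emb σ) g) t‖ :=
      lt_max_of_lt_left p1
    have q1 := Real.log_le_log p1 (le_max_left ‖cv (MvPolynomial.map (emb σ) f) t‖
      ‖cv (MvPolynomial.map (emb σ) g) t‖)
    have q2 := Real.log_le_log p3 (max_le_max (h1' t) (h2' t))
    have q3 : 0 ≤ Real.log (max K1 K2) := Real.log_nonneg (le_max_of_le_left h1)
    have h8 := neg_abs_le (Real.log ‖cv (MvPolynomial.map (emb σ) f) t‖)
    have h9 := abs_nonneg (Real.log ‖cv (MvPolynomial.map (emb σ) f) t‖)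
    rw [Real.norm_eq_abs, abs_le]
    simp only [Pi.add_apply]
    constructor <;> linarith

/-- **Norms of coprime pairs over an arbitrary number field.** -/
theorem pair_norm (f g : MvPolynomial (Fin k) (𝓞 E)) (hf : f ≠ 0)
    (hcop : IsRelPrime (toE f) (toE g)) :
    (∏ σ : E →+* ℂ, mC (MvPolynomial.map (emb σ) f)) ∈
      LL ((∑ σ : E →+* ℂ, mxC (MvPolynomial.map (emb σ) f) (MvPolynomial.map (emb σ) g)) +
        Module.finrank ℚ E * Real.log 2) := by
  classical
  obtain ⟨F, hF⟩ := norm_int f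
  rw [← mM_norm hf hF]
  have hF0 := F_ne_zero hf hF
  have hfE : toE f ≠ 0 := by
    intro h
    apply hf
    apply toE_injective
    rw [h]
    unfold toE
    rw [map_zero]
  set n := Module.finrank ℚ E with hn
  set h : MvPolynomial (Fin (k + 1)) (𝓞 E) := MvPolynomial.rename Fin.succ f +
    MvPolynomial.X 0 * MvPolynomial.rename Fin.succ g with hh
  obtain ⟨P, hP⟩ := norm_int h
  have hPN := isN_of_int hP
  have htoE : toE h = MvPolynomial.rename Fin.succ (toE f) +
      MvPolynomial.X 0 * MvPolynomial.rename Fin.succ (toE g) := by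
    rw [hh]
    unfold toE
    rw [map_add, map_mul, MvPolynomial.map_rename, MvPolynomial.map_rename, MvPolynomial.map_X]
  have hE0 : toE h ≠ 0 := by
    intro h3
    have h4 : sub0 0 (toE h) = toE f := by
      rw [htoE, map_add, map_mul, sub0_rename, sub0_rename, sub0_X0, map_zero, zero_mul,
        add_zero]
    rw [h3, map_zero] at h4
    exact hfE h4.symm
  have hP0 : P ≠ 0 := by
    have h1 := isN_ne_zero hPN hE0
    rintro rfl
    rw [map_zero] at h1
    exact h1 rfl
  obtain ⟨a, P', ha0, hPP', hprim⟩ := exists_primitive P hP0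
  have hP'0 : P' ≠ 0 := by
    rintro rfl
    rw [mul_zero] at hPP'
    exact hP0 hPP'
  set F' : MvPolynomial (Fin (k + 1)) ℤ := MvPolynomial.rename Fin.succ F with hF'
  have hF'0 : F' ≠ 0 := J.rename_ne_zero hF0
  have hrel : IsRelPrime F' P' := by
    intro d hd1 hd2
    obtain ⟨b, rfl⟩ := const_of_dvd (toE f) (toE g) hfE hcop F hF0 P
      (by rw [← htoE]; exact hPN) d hd1 (by rw [hPP']; exact dvd_mul_of_dvd_right hd2 _)
    exact (hprim b hd2).map MvPolynomial.C
  have hpt : ∀ t : Fin (k + 1) → ℝ, max ‖tv F' t‖ ‖tv P' t‖ ≤ ∏ σ : E →+* ℂ,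
      (2 * max ‖cv (MvPolynomial.map (emb σ) f) (fun j => t j.succ)‖
        ‖cv (MvPolynomial.map (emb σ) g) (fun j => t j.succ)‖) := by
    intro t
    apply max_le
    · rw [hF', J.tv_rename, norm_tv_cprod hF]
      refine Finset.prod_le_prod (fun _ _ => norm_nonneg _) fun σ _ => ?_
      have h1 := le_max_left ‖cv (MvPolynomial.map (emb σ) f) (fun j => t j.succ)‖
        ‖cv (MvPolynomial.map (emb σ) g) (fun j => t j.succ)‖
      have h2 := norm_nonneg (cv (MvPolynomial.map (emb σ) f) (fun j => t j.succ))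
      linarith
    · have h1 : ‖tv P' t‖ ≤ ‖tv P t‖ := by
        rw [hPP', J.tv_mul, J.tv_C, norm_mul, Complex.norm_intCast]
        have h2 : (1 : ℝ) ≤ |((a : ℤ) : ℝ)| := by exact_mod_cast Int.one_le_abs ha0
        exact le_mul_of_one_le_left (norm_nonneg _) h2
      refine h1.trans ?_
      rw [norm_tv_cprod hP]
      refine Finset.prod_le_prod (fun _ _ => norm_nonneg _) fun σ _ => ?_
      have h4 : cv (MvPolynomial.map (emb σ) h) t =
          cv (MvPolynomial.map (emb σ) f) (fun j => t j.succ) +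
          J.zz t 0 * cv (MvPolynomial.map (emb σ) g) (fun j => t j.succ) := by
        unfold cv
        rw [hh, map_add, map_mul, map_add, map_mul, MvPolynomial.map_rename,
          MvPolynomial.map_rename, MvPolynomial.map_X, MvPolynomial.eval_X,
          MvPolynomial.eval_rename, MvPolynomial.eval_rename]
        rfl
      rw [h4]
      refine (norm_add_le _ _).trans ?_
      rw [norm_mul, J.norm_zz, one_mul]
      have h5 := le_max_left ‖cv (MvPolynomial.map (emb σ) f) (fun j => t j.succ)‖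
        ‖cv (MvPolynomial.map (emb σ) g) (fun j => t j.succ)‖
      have h6 := le_max_right ‖cv (MvPolynomial.map (emb σ) f) (fun j => t j.succ)‖
        ‖cv (MvPolynomial.map (emb σ) g) (fun j => t j.succ)‖
      linarith
  refine ⟨k + 1, by omega, F', P', hF'0, hP'0, hrel, ?_, (J.mM_rename F).symm⟩
  -- the integral
  set G : (Fin k → ℝ) → ℝ := fun t => ∑ σ : E →+* ℂ, (Real.log 2 +
    Real.log (max ‖cv (MvPolynomial.map (emb σ) f) t‖ ‖cv (MvPolynomial.map (emb σ) g) t‖)) with hG
  have hGmeas : Measurable G := by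
    rw [hG]
    refine Finset.measurable_sum _ fun σ _ => ?_
    exact measurable_const.add (Real.measurable_log.comp
      ((continuous_cv _).norm.max (continuous_cv _).norm).measurable)
  have hGint : Integrable G (volume.restrict (Set.Icc (0 : Fin k → ℝ) 1)) :=
    integrable_finset_sum _ fun σ _ => (integrable_const _).add (integrable_maxC hf g σ)
  have hGval : ∫ t in Set.Icc (0 : Fin k → ℝ) 1, G t =
      (∑ σ : E →+* ℂ, mxC (MvPolynomial.map (emb σ) f) (MvPolynomial.map (emb σ) g)) +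
        n * Real.log 2 := by
    have hint : ∀ σ ∈ (Finset.univ : Finset (E →+* ℂ)), Integrable (fun t : Fin k → ℝ =>
        Real.log 2 + Real.log (max ‖cv (MvPolynomial.map (emb σ) f) t‖
          ‖cv (MvPolynomial.map (emb σ) g) t‖)) (volume.restrict (Set.Icc (0 : Fin k → ℝ) 1)) :=
      fun σ _ => (integrable_const _).add (integrable_maxC hf g σ)
    have h0 : ∫ t in Set.Icc (0 : Fin k → ℝ) 1, G t = ∑ σ : E →+* ℂ,
        ∫ t in Set.Icc (0 : Fin k → ℝ) 1, (Real.log 2 +
        Real.log (max ‖cv (MvPolynomial.map (emb σ) f) t‖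
          ‖cv (MvPolynomial.map (emb σ) g) t‖)) := integral_finset_sum _ hint
    rw [h0]
    have h1 : ∀ σ : E →+* ℂ, (∫ t in Set.Icc (0 : Fin k → ℝ) 1, (Real.log 2 +
        Real.log (max ‖cv (MvPolynomial.map (emb σ) f) t‖
          ‖cv (MvPolynomial.map (emb σ) g) t‖))) =
        Real.log 2 + mxC (MvPolynomial.map (emb σ) f) (MvPolynomial.map (emb σ) g) := by
      intro σ
      rw [integral_add (integrable_const _) (integrable_maxC hf g σ), setIntegral_const,
        J.vol_cube, one_smul]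
      rfl
    simp only [h1]
    rw [Finset.sum_add_distrib, Finset.sum_const, Finset.card_univ,
      NumberField.Embeddings.card, nsmul_eq_mul]
    ring
  have hmap := cube_comp (Fin.succ : Fin k → Fin (k + 1)) (Fin.succ_injective k) G hGmeas
  have hGint2 : Integrable (fun t : Fin (k + 1) → ℝ => G fun j => t j.succ)
      (volume.restrict (Set.Icc (0 : Fin (k + 1) → ℝ) 1)) := by
    rw [F_restrict_cube] at hGint ⊢
    rw [← pi_map_comp (Fin.succ : Fin k → Fin (k + 1)) (Fin.succ_injective k)] at hGint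
    exact hGint.comp_measurable (by fun_prop)
  rw [← hGval, ← hmap]
  unfold mx
  refine integral_mono_ae (integrable_logmax' hF'0 P') hGint2 ?_
  filter_upwards [F_zero_null hF'0] with t ht
  have h10 : 0 < ‖tv F' t‖ := norm_pos_iff.mpr ht
  have h12 : 0 < max ‖tv F' t‖ ‖tv P' t‖ := lt_max_of_lt_left h10
  have hpos : ∀ σ : E →+* ℂ, 0 < ‖cv (MvPolynomial.map (emb σ) f) (fun j => t j.succ)‖ := by
    intro σ
    rw [hF', J.tv_rename, norm_tv_cprod hF] at h10
    by_contra hc
    have hc2 := le_antisymm (not_lt.1 hc) (norm_nonneg _)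
    have h2 : (∏ σ : E →+* ℂ, ‖cv (MvPolynomial.map (emb σ) f) (fun j => t j.succ)‖) = 0 :=
      Finset.prod_eq_zero (Finset.mem_univ σ) hc2
    rw [h2] at h10
    exact lt_irrefl _ h10
  refine (Real.log_le_log h12 (hpt t)).trans (le_of_eq ?_)
  rw [Real.log_prod]
  · rw [hG]
    refine Finset.sum_congr rfl fun σ _ => ?_
    rw [Real.log_mul two_ne_zero (lt_max_of_lt_left (hpos σ)).ne']
  · intro σ _
    exact (mul_pos two_pos (lt_max_of_lt_left (hpos σ))).ne'

end

end Pool.Agent.TH845.KN
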